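import Pool.Agent.H13.CA.FB

/-!
# Chai's Hope for all primes `p` and all heights `n = m + 1`

The definitions are in `Pool/Agent/H13/CA/FD.lean`.
-/

open Pool.Agent.H13.FD

universe u

namespace Pool.Agent.Results.MP_38e74e_gt.ChaiHope

/-- Let `k` be a perfect field of characteristic `p`, `n = m + 1`, and `F` over `W(k)⟦X_1, .., X_m⟧` a
universal deformation of its special fibre, a formal group law of height `n` all of whose automorphisms
over an algebraic closure of `k` are defined over `k`.  Every automorphism `t` of the special fibre has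
exactly one lift `(g, f)`, and a radical ideal `I ≠ (1)` is stable under the lifts of all automorphisms
`t ≡ x mod x ^ N`, for some `N`, if and only if it is `I_0 = 0` or one of the ideals
`I_(j+1) = (p, w_1, .., w_j)`, `0 ≤ j ≤ m`.  For every perfect field `k` there is such a universal
deformation whose special fibre has `[p] (x) = x ^ (p ^ n)`; all automorphisms of this special fibre are
defined over `k` if `k` contains the field with `p ^ n` elements. -/
theorem result (p : ℕ) [Fact p.Prime] (k : Type u) [Field k] [CharP k p] [PerfectRing k p]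
    (m : ℕ) :
    (∀ F : FormalGroup (LT p k m), IsUniversal F → AutDef (F.map (res p k m)) →
      (∀ t : PowerSeries k, IsIso (F.map (res p k m)) (F.map (res p k m)) t →
        ∃! a : (LT p k m ≃ₐ[WittVector p k] LT p k m) × PowerSeries (LT p k m),
          IsLift F a ∧ PowerSeries.map (res p k m) a.2 = t) ∧
      ∀ I : Ideal (LT p k m), I.IsRadical → I ≠ ⊤ →
        ((∃ N : ℕ, ∀ a : (LT p k m ≃ₐ[WittVector p k] LT p k m) × PowerSeries (LT p k m),
          IsLift F a →
            (PowerSeries.X : PowerSeries k) ^ N ∣
              PowerSeries.map (res p k m) a.2 - PowerSeries.X →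
                I.map (a.1 : LT p k m →+* LT p k m) ≤ I) ↔
          I = ⊥ ∨ ∃ j, j ≤ m ∧ I = wIdeal p F j)) ∧
    ∃ F : FormalGroup (LT p k m), IsUniversal F ∧
      mulBy (F.map (res p k m)) p = (PowerSeries.X : PowerSeries k) ^ p ^ (m + 1) ∧
      (Nonempty (GaloisField p (m + 1) →+* k) → AutDef (F.map (res p k m))) :=
  ⟨fun _ hF hA => ⟨Pool.Agent.H13.CA.final_lifts hF hA, Pool.Agent.H13.CA.final_ideals hF hA⟩,
    Pool.Agent.H13.CA.final_exists⟩

end Pool.Agent.Results.MP_38e74e_gt.ChaiHope
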