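import Pool.Agent.H86.TT.Cla

/-!
# Thick tensor-ideals of dualizable `K(n)`-local spectra, for all primes `p` and all heights `n = m + 1`

The definitions are in `Pool/Agent/H86/TT/Defs.lean` (thick tensor-ideals, `D`, `MoravaModule`,
`IsMorava`) and `Pool/Agent/H13/CA/FD.lean` (formal group laws, universal deformations, lifts).
-/

open CategoryTheory Limits Pretriangulated MonoidalCategory
open Pool.Agent.H13.FD Pool.Agent.H86.TT

universe w v u

namespace Pool.Agent.Results.MP_38e74e_gt.HoveyStrickland

/-- Let `k` be a perfect field of characteristic `p`, `n = m + 1`, and `F` over `W(k)⟦X_1, .., X_m⟧` a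
universal deformation of its special fibre, a formal group law of height `n` all of whose automorphisms
over an algebraic closure of `k` are defined over `k`.  Let `T` be a triangulated braided monoidal
category, `E` an object of `T` on which `W(k)⟦X_1, .., X_m⟧` acts, and `Ft j` (`j = 0, 1, ..`) classes of
objects of `T`, such that `IsMorava` holds: the tensor product is exact, the dualizable objects form a
thick subcategory, the unit belongs to the thick tensor-ideal generated by `E`, the lifts of the
automorphisms of the special fibre act on `E`, the Morava modules of dualizable objects are finitely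
generated, `E ⊗ Y` belongs to the thick subcategory generated by `E ⊗ X` if the support of the Morava
module of `Y` is contained in that of `X`, and a dualizable object belongs to `D_j`, `j ≤ n`, iff its
Morava module is `I_j`-torsion.  Then every thick tensor-ideal of the category of dualizable objects is
`D_j` for some `0 ≤ j ≤ n + 1`. -/
theorem result (p : ℕ) [Fact p.Prime] (k : Type w) [Field k] [CharP k p] [PerfectRing k p] (m : ℕ)
    (F : FormalGroup (LT p k m)) (hF : IsUniversal F) (hA : AutDef (F.map (res p k m)))
    (T : Type u) [Category.{v} T] [HasZeroObject T] [Preadditive T] [HasShift T ℤ]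
    [∀ n : ℤ, (shiftFunctor T n).Additive] [Pretriangulated T] [IsTriangulated T]
    [MonoidalCategory T] [MonoidalPreadditive T] [BraidedCategory T]
    (E : T) (ρ : LT p k m →+* End E) (Ft : ℕ → T → Prop) (hT : IsMorava F E ρ Ft)
    (C : T → Prop) (hC : IsThickTensorIdeal C) :
    ∃ j, j ≤ m + 2 ∧ ∀ X, C X ↔ D (m + 1) Ft j X :=
  classification hF hA hT hC

end Pool.Agent.Results.MP_38e74e_gt.HoveyStrickland
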